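import Pool.Agent.K3h75.ND.StmN

/-!
# Project ND, brick GND: generic pencils have only nondegenerate singular points
-/

set_option autoImplicit false

namespace Pool.Agent.K3h36.ND

open MvPolynomial Pool.Agent.K3h75.ND

/-- Derivations of an algebraic extension of `ℚ(X m)` with given values at the variables. -/
theorem exists_der {ι : Type} (L : Type) [Field L]
    [Algebra (FractionRing (MvPolynomial ι ℤ)) L]
    [Algebra.IsAlgebraic (FractionRing (MvPolynomial ι ℤ)) L] (f : ι → L) :
    ∃ D : Derivation ℤ L L, ∀ m, D (algebraMap (FractionRing (MvPolynomial ι ℤ)) L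
      (algebraMap (MvPolynomial ι ℤ) _ (X m))) = f m := by
  let _ : Algebra (MvPolynomial ι ℤ) L :=
    ((algebraMap (FractionRing (MvPolynomial ι ℤ)) L).comp
      (algebraMap (MvPolynomial ι ℤ) (FractionRing (MvPolynomial ι ℤ)))).toAlgebra
  have : IsScalarTower (MvPolynomial ι ℤ) (FractionRing (MvPolynomial ι ℤ)) L :=
    IsScalarTower.of_algebraMap_eq' rfl
  have hinj : Function.Injective (Int.castRingHom (FractionRing (MvPolynomial ι ℤ))) := by
    have h1 : Int.castRingHom (FractionRing (MvPolynomial ι ℤ)) =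
        (algebraMap (MvPolynomial ι ℤ) (FractionRing (MvPolynomial ι ℤ))).comp (MvPolynomial.C) :=
      RingHom.ext_int _ _
    rw [h1]
    exact (IsFractionRing.injective (MvPolynomial ι ℤ) _).comp (MvPolynomial.C_injective ι ℤ)
  have : CharZero (FractionRing (MvPolynomial ι ℤ)) := by
    refine ⟨fun a b hab => ?_⟩
    have h2 : Int.castRingHom (FractionRing (MvPolynomial ι ℤ)) (a : ℤ) =
        Int.castRingHom (FractionRing (MvPolynomial ι ℤ)) (b : ℤ) := by
      rw [map_natCast, map_natCast]; exact hab
    exact_mod_cast hinj h2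
  have : Algebra.IsSeparable (FractionRing (MvPolynomial ι ℤ)) L := inferInstance
  have : Algebra.FormallyEtale (FractionRing (MvPolynomial ι ℤ)) L :=
    Algebra.FormallyEtale.of_isSeparable _ _
  have : Algebra.FormallyEtale (MvPolynomial ι ℤ) (FractionRing (MvPolynomial ι ℤ)) :=
    Algebra.FormallyEtale.of_isLocalization (nonZeroDivisors (MvPolynomial ι ℤ))
  have : Algebra.FormallyEtale (MvPolynomial ι ℤ) L :=
    Algebra.FormallyEtale.comp (MvPolynomial ι ℤ) (FractionRing (MvPolynomial ι ℤ)) L
  have : IsScalarTower ℤ (MvPolynomial ι ℤ) L := inferInstance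
  let δ : Derivation ℤ (MvPolynomial ι ℤ) L := MvPolynomial.mkDerivation ℤ f
  let φ := (LinearMap.liftBaseChange L δ.liftKaehlerDifferential).comp
    (KaehlerDifferential.tensorKaehlerEquivOfFormallyEtale ℤ (MvPolynomial ι ℤ) L).symm.toLinearMap
  refine ⟨φ.compDer (KaehlerDifferential.D ℤ L), fun m => ?_⟩
  have h1 : (KaehlerDifferential.tensorKaehlerEquivOfFormallyEtale ℤ (MvPolynomial ι ℤ) L).symm
      (KaehlerDifferential.D ℤ L (algebraMap (MvPolynomial ι ℤ) L (X m))) =
      1 ⊗ₜ KaehlerDifferential.D ℤ (MvPolynomial ι ℤ) (X m) :=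
    KaehlerDifferential.tensorKaehlerEquivOfFormallyEtale_symm_D_algebraMap _ _ _ _
  change (LinearMap.liftBaseChange L δ.liftKaehlerDifferential)
    ((KaehlerDifferential.tensorKaehlerEquivOfFormallyEtale ℤ (MvPolynomial ι ℤ) L).symm
      (KaehlerDifferential.D ℤ L (algebraMap (MvPolynomial ι ℤ) L (X m)))) = f m
  rw [h1, LinearMap.liftBaseChange_tmul, one_smul, Derivation.liftKaehlerDifferential_comp_D]
  exact MvPolynomial.mkDerivation_X ℤ f m

/-- The chain rule. -/
theorem der_aeval {σ L : Type} [Fintype σ] [Field L] (D : Derivation ℤ L L) (x : σ → L)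
    (q : MvPolynomial σ ℤ) : D (aeval x q) = ∑ j, aeval x (pderiv j q) * D (x j) := by
  classical
  induction q using MvPolynomial.induction_on with
  | C a =>
    simp
  | add p q hp hq =>
    rw [map_add, map_add, hp, hq, ← Finset.sum_add_distrib]
    refine Finset.sum_congr rfl fun j _ => ?_
    rw [map_add, map_add, add_mul]
  | mul_X p n hp =>
    rw [map_mul, aeval_X, Derivation.leibniz, hp, smul_eq_mul, smul_eq_mul, Finset.mul_sum]
    have h1 : ∀ j, aeval x (pderiv j (p * X n)) * D (x j) =
        (if j = n then aeval x p * D (x n) else 0) +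
          x n * (aeval x (pderiv j p) * D (x j)) := by
      intro j
      rw [pderiv_mul, pderiv_X, map_add, map_mul, map_mul, aeval_X]
      by_cases h : j = n
      · subst h
        rw [if_pos rfl, Pi.single_eq_same, map_one]
        ring
      · rw [if_neg h, Pi.single_eq_of_ne (Ne.symm h), map_zero]
        ring
    rw [Finset.sum_congr rfl fun j _ => h1 j, Finset.sum_add_distrib, Finset.sum_ite_eq']
    simp

section

variable {N d : ℕ} {L : Type} [Field L] (x : Fin N → L)

theorem monomial_eq (m : Fin N →₀ ℕ) (a : L) :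
    monomial m a = C a * map (Int.castRingHom L) (monomial m 1) := by
  rw [map_monomial, C_mul_monomial, map_one, mul_one]

theorem eval_form (a : Mon N d → L) :
    eval x (form a) = ∑ m, a m * aeval x (monomial m.1 (1 : ℤ)) := by
  rw [form, map_sum]
  refine Finset.sum_congr rfl fun m _ => ?_
  rw [monomial_eq, map_mul, eval_C, eval_map, aeval_def]
  rfl

theorem eval_form1 (a : Mon N d → L) (i : Fin N) :
    eval x (pderiv i (form a)) = ∑ m, a m * aeval x (pderiv i (monomial m.1 (1 : ℤ))) := by
  rw [form, map_sum, map_sum]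
  refine Finset.sum_congr rfl fun m _ => ?_
  rw [monomial_eq, pderiv_C_mul, pderiv_map, map_mul, eval_C, eval_map, aeval_def]
  rfl

theorem eval_form2 (a : Mon N d → L) (i j : Fin N) :
    eval x (pderiv j (pderiv i (form a))) =
      ∑ m, a m * aeval x (pderiv j (pderiv i (monomial m.1 (1 : ℤ)))) := by
  rw [form, map_sum, map_sum, map_sum]
  refine Finset.sum_congr rfl fun m _ => ?_
  rw [monomial_eq, pderiv_C_mul, pderiv_map, pderiv_C_mul, pderiv_map, map_mul, eval_C, eval_map,
    aeval_def]
  rfl

theorem form_homogeneous (a : Mon N d → L) : (form a).IsHomogeneous d := by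
  rw [form]
  refine IsHomogeneous.sum _ _ _ fun m _ => ?_
  exact isHomogeneous_monomial _ m.2

/-- Euler -/
theorem euler0 (a : Mon N d → L) :
    ∑ i, x i * eval x (pderiv i (form a)) = d * eval x (form a) := by
  have h := congrArg (eval x) (form_homogeneous a).sum_X_mul_pderiv
  rw [map_sum, nsmul_eq_mul, map_mul, map_natCast] at h
  rw [← h]
  refine Finset.sum_congr rfl fun i _ => ?_
  rw [map_mul, eval_X]

theorem euler1 (a : Mon N d → L) (i : Fin N) :
    ∑ j, x j * eval x (pderiv j (pderiv i (form a))) =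
      ((d - 1 : ℕ) : L) * eval x (pderiv i (form a)) := by
  have h := congrArg (eval x) ((form_homogeneous a).pderiv (i := i)).sum_X_mul_pderiv
  rw [map_sum, nsmul_eq_mul, map_mul, map_natCast] at h
  rw [← h]
  refine Finset.sum_congr rfl fun i _ => ?_
  rw [map_mul, eval_X]

/-- The derivative of a value of a form. -/
theorem der_form (D : Derivation ℤ L L) (a : Mon N d → L) :
    D (eval x (form a)) = ∑ m, D (a m) * aeval x (monomial m.1 (1 : ℤ)) +
      ∑ j, eval x (pderiv j (form a)) * D (x j) := by
  rw [eval_form, map_sum]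
  have h1 : ∀ m : Mon N d, D (a m * aeval x (monomial m.1 (1 : ℤ))) =
      D (a m) * aeval x (monomial m.1 (1 : ℤ)) +
        ∑ j, a m * aeval x (pderiv j (monomial m.1 (1 : ℤ))) * D (x j) := by
    intro m
    rw [Derivation.leibniz, der_aeval, smul_eq_mul, smul_eq_mul, Finset.mul_sum, add_comm,
      mul_comm (D (a m))]
    congr 1
    exact Finset.sum_congr rfl fun j _ => by ring
  rw [Finset.sum_congr rfl fun m _ => h1 m, Finset.sum_add_distrib]
  congr 1
  rw [Finset.sum_comm]
  refine Finset.sum_congr rfl fun j _ => ?_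
  rw [eval_form1, Finset.sum_mul]

theorem der_form1 (D : Derivation ℤ L L) (a : Mon N d → L) (i : Fin N) :
    D (eval x (pderiv i (form a))) = ∑ m, D (a m) * aeval x (pderiv i (monomial m.1 (1 : ℤ))) +
      ∑ j, eval x (pderiv j (pderiv i (form a))) * D (x j) := by
  rw [eval_form1, map_sum]
  have h1 : ∀ m : Mon N d, D (a m * aeval x (pderiv i (monomial m.1 (1 : ℤ)))) =
      D (a m) * aeval x (pderiv i (monomial m.1 (1 : ℤ))) +
        ∑ j, a m * aeval x (pderiv j (pderiv i (monomial m.1 (1 : ℤ)))) * D (x j) := by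
    intro m
    rw [Derivation.leibniz, der_aeval, smul_eq_mul, smul_eq_mul, Finset.mul_sum, add_comm,
      mul_comm (D (a m))]
    congr 1
    exact Finset.sum_congr rfl fun j _ => by ring
  rw [Finset.sum_congr rfl fun m _ => h1 m, Finset.sum_add_distrib]
  congr 1
  rw [Finset.sum_comm]
  refine Finset.sum_congr rfl fun j _ => ?_
  rw [eval_form2, Finset.sum_mul]

end

/-- The derivative of the coefficients of the pencil. -/
theorem sum_der {N d : ℕ} {L : Type} [Field L] (D : Derivation ℤ L L) (B : Idx N d → L) (c : L)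
    (m : Idx N d) (hm : D (B m) = 1) (hm' : ∀ m', m' ≠ m → D (B m') = 0)
    (V : Mon (N + 1) d → L) (T : L)
    (hT : by classical exact T = ∑ m', if IsPow m' then V m' else 0) :
    ∑ m', D (pcoef B c m') * V m' = V m.1 + D c * T := by
  classical
  have h1 : ∀ m', D (pcoef B c m') * V m' =
      (if m' = m.1 then V m' else 0) + D c * (if IsPow m' then V m' else 0) := by
    intro m'
    rw [pcoef, map_add, add_mul]
    congr 1
    · by_cases h : IsFirst m'
      · rw [dif_pos h, map_zero, zero_mul, if_neg]
        rintro rfl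
        exact m.2 h
      · rw [dif_neg h]
        by_cases h2 : m' = m.1
        · rw [if_pos h2]
          have h3 : (⟨m', h⟩ : Idx N d) = m := Subtype.ext h2
          rw [h3, hm, one_mul]
        · have h4 : D (B ⟨m', h⟩) = 0 := hm' _ fun h3 => h2 (congrArg Subtype.val h3)
          rw [if_neg h2, h4, zero_mul]
    · by_cases h : IsPow m'
      · rw [if_pos h, if_pos h]
      · rw [if_neg h, if_neg h, map_zero, zero_mul, mul_zero]
  rw [Finset.sum_congr rfl fun m' _ => h1 m', Finset.sum_add_distrib, ← Finset.mul_sum,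
    Finset.sum_ite_eq', if_pos (Finset.mem_univ _), hT]

theorem t_GND : S_GND := by
  classical
  intro N d hd L _ _ _ c x s hxs hf hdet0
  have hinj : Function.Injective (Int.castRingHom L) := by
    have h1 : Int.castRingHom L = ((algebraMap (FractionRing (MvPolynomial (Idx N d) ℤ)) L).comp
        (algebraMap (MvPolynomial (Idx N d) ℤ) (FractionRing (MvPolynomial (Idx N d) ℤ)))).comp
          (MvPolynomial.C) :=
      RingHom.ext_int _ _
    rw [h1]
    exact ((algebraMap (FractionRing (MvPolynomial (Idx N d) ℤ)) L).injective.comp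
      (IsFractionRing.injective (MvPolynomial (Idx N d) ℤ) _)).comp (MvPolynomial.C_injective _ ℤ)
  have hchar : CharZero L := by
    refine ⟨fun a b hab => ?_⟩
    have h2 : Int.castRingHom L (a : ℤ) = Int.castRingHom L (b : ℤ) := by
      rw [map_natCast, map_natCast]; exact hab
    exact_mod_cast hinj h2
  set B : Idx N d → L := fun m => algebraMap (FractionRing (MvPolynomial (Idx N d) ℤ)) L
    (algebraMap (MvPolynomial (Idx N d) ℤ) _ (X m)) with hB
  have hd0 : (d : L) ≠ 0 := by exact_mod_cast (by omega : d ≠ 0)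
  have hG0 : eval x (pform B c) = 0 := by
    have h1 := euler0 x (pcoef B c)
    have h2 : ∑ i, x i * eval x (pderiv i (form (pcoef B c))) = 0 :=
      Finset.sum_eq_zero fun i _ => by
        have := hf i
        rw [pform] at this
        rw [this, mul_zero]
    rw [h2] at h1
    exact (mul_eq_zero.mp h1.symm).resolve_left hd0
  -- the vector `w`
  obtain ⟨w₀, hw₀, hw₁⟩ := Matrix.exists_mulVec_eq_zero_iff.mpr hdet0
  set w : Fin (N + 1) → L := fun i => if h : i ≠ s then w₀ ⟨i, h⟩ else 0 with hw
  have hws : w s = 0 := by rw [hw]; simp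
  have hHw : ∀ j, ∑ i, eval x (pderiv j (pderiv i (form (pcoef B c)))) * w i = 0 := by
    have h1 : ∀ j, j ≠ s → ∑ i, eval x (pderiv j (pderiv i (form (pcoef B c)))) * w i = 0 := by
      intro j hj
      have h2 := congrFun hw₁ ⟨j, hj⟩
      rw [Matrix.mulVec, dotProduct] at h2
      rw [← Fintype.sum_subtype_add_sum_subtype (fun i => i ≠ s)]
      have h3 : ∑ i : {i // ¬ i ≠ s}, eval x (pderiv j (pderiv i.1 (form (pcoef B c)))) * w i.1 =
          0 := by
        refine Finset.sum_eq_zero fun i _ => ?_
        rw [not_not.mp i.2, hws, mul_zero]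
      rw [Pi.zero_apply] at h2
      rw [h3, add_zero, ← h2]
      refine Finset.sum_congr rfl fun i _ => ?_
      rw [hw]
      simp only
      rw [dif_pos i.2]
      rfl
    intro j
    by_cases hj : j = s
    · subst hj
      have h3 : ∑ j', x j' * ∑ i, eval x (pderiv j' (pderiv i (form (pcoef B c)))) * w i = 0 := by
        simp_rw [Finset.mul_sum]
        rw [Finset.sum_comm]
        refine Finset.sum_eq_zero fun i _ => ?_
        have h4 := euler1 x (pcoef B c) i
        have h5 : eval x (pderiv i (form (pcoef B c))) = 0 := hf i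
        rw [h5, mul_zero] at h4
        rw [← mul_zero (w i), ← h4, Finset.mul_sum]
        exact Finset.sum_congr rfl fun j' _ => by ring
      rw [Finset.sum_eq_single j] at h3
      · rwa [hxs, one_mul] at h3
      · intro i _ hi
        rw [h1 i hi, mul_zero]
      · intro h; exact absurd (Finset.mem_univ _) h
    · exact h1 j hj
  -- the functions `E` and `W`
  set E : Mon (N + 1) d → L := fun m => aeval x (monomial m.1 (1 : ℤ)) with hE
  set W : Mon (N + 1) d → L := fun m => ∑ i, w i * aeval x (pderiv i (monomial m.1 (1 : ℤ)))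
    with hW
  set T : L := ∑ m', if IsPow m' then E m' else 0 with hT
  set TW : L := ∑ m', if IsPow m' then W m' else 0 with hTW
  have key : ∀ m : Idx N d, ∃ t : L, E m.1 = t * T ∧ W m.1 = t * TW := by
    intro m
    obtain ⟨D, hD⟩ := exists_der (ι := Idx N d) L (fun m' => if m' = m then 1 else 0)
    have hDm : D (B m) = 1 := by rw [hB]; simp only; rw [hD, if_pos rfl]
    have hDm' : ∀ m', m' ≠ m → D (B m') = 0 := by
      intro m' h
      rw [hB]; simp only; rw [hD, if_neg h]
    have h1 : E m.1 + D c * T = 0 := by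
      rw [← sum_der D B c m hDm hDm' E T hT]
      have h2 := der_form x D (pcoef B c)
      have h3 : eval x (form (pcoef B c)) = 0 := hG0
      rw [h3, map_zero] at h2
      have h4 : ∑ j, eval x (pderiv j (form (pcoef B c))) * D (x j) = 0 :=
        Finset.sum_eq_zero fun j _ => by
          have h5 : eval x (pderiv j (form (pcoef B c))) = 0 := hf j
          rw [h5, zero_mul]
      rw [h4, add_zero] at h2
      exact h2.symm
    have h2 : W m.1 + D c * TW = 0 := by
      rw [← sum_der D B c m hDm hDm' W TW hTW]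
      have h3 : ∀ i, w i * (∑ m, D (pcoef B c m) * aeval x (pderiv i (monomial m.1 (1 : ℤ))) +
          ∑ j, eval x (pderiv j (pderiv i (form (pcoef B c)))) * D (x j)) = 0 := by
        intro i
        rw [← der_form1 x D (pcoef B c) i]
        have h5 : eval x (pderiv i (form (pcoef B c))) = 0 := hf i
        rw [h5, map_zero, mul_zero]
      have h4 := Finset.sum_eq_zero (s := Finset.univ) fun i _ => h3 i
      simp_rw [mul_add] at h4
      rw [Finset.sum_add_distrib] at h4
      have h5 : ∑ i, w i * ∑ j, eval x (pderiv j (pderiv i (form (pcoef B c)))) * D (x j) = 0 := by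
        simp_rw [Finset.mul_sum]
        rw [Finset.sum_comm]
        refine Finset.sum_eq_zero fun j _ => ?_
        rw [← mul_zero (D (x j)), ← hHw j, Finset.mul_sum]
        exact Finset.sum_congr rfl fun i _ => by ring
      rw [h5, add_zero] at h4
      rw [← h4, hW]
      simp_rw [Finset.mul_sum]
      rw [Finset.sum_comm]
      refine Finset.sum_congr rfl fun i _ => Finset.sum_congr rfl fun m _ => by ring
    exact ⟨-D c, by linear_combination h1, by linear_combination h2⟩
  -- the monomials used
  have hEs : ∀ m : Mon (N + 1) d, m.1 = Finsupp.single s d → E m = 1 := by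
    intro m hm
    rw [hE]; simp only
    rw [hm, ← X_pow_eq_monomial, map_pow, aeval_X, hxs, one_pow]
  have hfirst : ∀ m : Mon (N + 1) d, IsFirst m → IsPow m := fun m hm => ⟨0, hm⟩
  obtain ⟨m₀, hm₀⟩ : ∃ m₀ : Mon (N + 1) d, m₀.1 = Finsupp.single 0 d :=
    ⟨⟨Finsupp.single 0 d, Finsupp.degree_single _ _⟩, rfl⟩
  obtain ⟨ms, hms⟩ : ∃ ms : Mon (N + 1) d, ms.1 = Finsupp.single s d :=
    ⟨⟨Finsupp.single s d, Finsupp.degree_single _ _⟩, rfl⟩
  have hEnf : T = 0 → ∀ m : Mon (N + 1) d, ¬ IsFirst m → E m = 0 := by
    intro hT0 m hm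
    obtain ⟨t, ht, -⟩ := key ⟨m, hm⟩
    rw [hT0, mul_zero] at ht
    exact ht
  have hT0 : T ≠ 0 := by
    intro hT0
    by_cases hs : s = 0
    · have h1 : T = E m₀ := by
        rw [hT, Finset.sum_eq_single m₀]
        · rw [if_pos (hfirst m₀ hm₀)]
        · intro m _ hm
          have h2 : ¬ IsFirst m := fun h => hm (Subtype.ext (h.trans hm₀.symm))
          rw [hEnf hT0 m h2, ite_self]
        · intro h; exact absurd (Finset.mem_univ _) h
      rw [hEs m₀ (by rw [hm₀, hs]), hT0] at h1
      exact zero_ne_one h1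
    · have h1 : ¬ IsFirst ms := by
        intro h
        have h2 : (Finsupp.single s d : Fin (N + 1) →₀ ℕ) = Finsupp.single 0 d := hms.symm.trans h
        rcases Finsupp.single_eq_single_iff _ _ _ _ |>.mp h2 with ⟨h3, -⟩ | ⟨h3, -⟩
        · exact hs h3
        · omega
      have h3 := hEnf hT0 ms h1
      rw [hEs ms hms] at h3
      exact one_ne_zero h3
  have hall : ∀ m : Mon (N + 1) d, W m * T = TW * E m := by
    have h1 : ∀ m : Mon (N + 1) d, ¬ IsFirst m → W m * T = TW * E m := by
      intro m hm
      obtain ⟨t, ht1, ht2⟩ := key ⟨m, hm⟩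
      have ht1' : E m = t * T := ht1
      have ht2' : W m = t * TW := ht2
      rw [ht1', ht2']
      ring
    intro m
    by_cases hm : IsFirst m
    · have h2 : ∑ m', (if IsPow m' then (W m' * T - TW * E m') else 0) = 0 := by
        have h3 : ∀ m' : Mon (N + 1) d, (if IsPow m' then (W m' * T - TW * E m') else 0) =
            (if IsPow m' then W m' else 0) * T - TW * (if IsPow m' then E m' else 0) := by
          intro m'
          by_cases h : IsPow m'
          · rw [if_pos h, if_pos h, if_pos h]
          · rw [if_neg h, if_neg h, if_neg h]; ring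
        rw [Finset.sum_congr rfl fun m' _ => h3 m', Finset.sum_sub_distrib, ← Finset.sum_mul,
          ← Finset.mul_sum, ← hTW, ← hT]
        ring
      rw [Finset.sum_eq_single m] at h2
      · rw [if_pos (hfirst m hm)] at h2
        exact sub_eq_zero.mp h2
      · intro m' _ hm'
        have h4 : ¬ IsFirst m' := fun h => hm' (Subtype.ext (h.trans hm.symm))
        rw [h1 m' h4, sub_self, ite_self]
      · intro h; exact absurd (Finset.mem_univ _) h
    · exact h1 m hm
  -- `TW = 0`
  have hpdX : ∀ (n : ℕ) (i : Fin (N + 1)), w i * aeval x (pderiv i (X s ^ n : MvPolynomial _ ℤ)) =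
      0 := by
    intro n i
    by_cases h : i = s
    · rw [h, hws, zero_mul]
    · rw [pderiv_pow, pderiv_X_of_ne (Ne.symm h), mul_zero, map_zero, mul_zero]
  have hTW0 : TW = 0 := by
    have h1 := hall ms
    rw [hEs ms hms, mul_one] at h1
    rw [← h1]
    have h2 : W ms = 0 := by
      rw [hW]
      simp only
      refine Finset.sum_eq_zero fun i _ => ?_
      rw [hms, ← X_pow_eq_monomial]
      exact hpdX d i
    rw [h2, zero_mul]
  have hWall : ∀ m : Mon (N + 1) d, W m = 0 := by
    intro m
    have h1 := hall m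
    rw [hTW0, zero_mul] at h1
    exact (mul_eq_zero.mp h1).resolve_right hT0
  apply hw₀
  funext j
  have hmj : (Finsupp.single s (d - 1) + Finsupp.single j.1 1 : Fin (N + 1) →₀ ℕ).degree = d := by
    rw [map_add, Finsupp.degree_single, Finsupp.degree_single]
    omega
  have h1 := hWall ⟨_, hmj⟩
  have h2 : (monomial (Finsupp.single s (d - 1) + Finsupp.single j.1 1 : Fin (N + 1) →₀ ℕ) (1 : ℤ)) =
      X s ^ (d - 1) * X j.1 := by
    rw [X_pow_eq_monomial, X, monomial_mul, mul_one]
  rw [hW] at h1
  simp only at h1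
  rw [h2] at h1
  have h3 : ∀ i, w i * aeval x (pderiv i (X s ^ (d - 1) * X j.1 : MvPolynomial _ ℤ)) =
      if i = j.1 then w i else 0 := by
    intro i
    rw [pderiv_mul, map_add, map_mul, map_mul, mul_add, ← mul_assoc, hpdX, zero_mul, zero_add,
      map_pow, aeval_X, hxs, one_pow, one_mul]
    by_cases h : i = j.1
    · rw [if_pos h, h, pderiv_X_self, map_one, mul_one]
    · rw [if_neg h, pderiv_X_of_ne (Ne.symm h), map_zero, mul_zero]
  rw [Finset.sum_congr rfl fun i _ => h3 i, Finset.sum_ite_eq', if_pos (Finset.mem_univ _)] at h1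
  rw [hw] at h1
  simp only at h1
  rw [dif_pos j.2] at h1
  exact h1

end Pool.Agent.K3h36.ND
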